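import Mathlib

set_option autoImplicit false

/-!
# Sums of `k` products of quadratic polynomials: the definitions used in the final statement

`Y = ℚ[y]`, the variables `y` are `inl u` (`u < N₁`, weight 1, standing for linear forms) and
`inr v` (`v < N₂`, weight 2, standing for quadratic forms).
-/

namespace Pool.Agent.QPI

open MvPolynomial

/-! ## Gaussian moments of quadratic forms -/

section Moments

variable {κ υ : Type} [Fintype κ] [DecidableEq κ] [Fintype υ] [DecidableEq υ]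

/-- The coefficient of `s^β` in the trace of the power `(∑ v, s_v B_v) ^ |β|`. -/
noncomputable def trc (B : υ → Matrix κ κ ℚ) (β : υ →₀ ℕ) : ℚ :=
  coeff β (Matrix.trace ((∑ v, (X v : MvPolynomial υ ℚ) • (B v).map (C : ℚ →+* MvPolynomial υ ℚ)) ^
    β.degree))

open scoped Classical in
/-- `G 0 = 1` and `|α| G α = ∑ 2 ^ (|β| - 1) τ β G γ`, the sum over all `β ≠ 0`, `γ` with
`β + γ = α`. (For `τ = trc B` these are the coefficients of `det (1 - 2 ∑ v, s_v B_v) ^ (-1/2)`.) -/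
noncomputable def mom (τ : (υ →₀ ℕ) → ℚ) (α : υ →₀ ℕ) : ℚ :=
  if α = 0 then 1 else
    (∑ p ∈ (Finset.HasAntidiagonal.antidiagonal α).attach, if h : p.1.1 = 0 then 0 else
      2 ^ (p.1.1.degree - 1) * τ p.1.1 * mom τ p.1.2) / (α.degree : ℚ)
termination_by α.degree
decreasing_by
  have h1 : p.1.1 + p.1.2 = α := Finset.HasAntidiagonal.mem_antidiagonal.1 p.2
  have h2 : α.degree = (p.1.1).degree + (p.1.2).degree :=
    (congrArg Finsupp.degree h1).symm.trans (map_add _ _ _)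
  have h3 : (p.1.1).degree ≠ 0 := fun h0 => h ((Finsupp.degree_eq_zero_iff _).1 h0)
  omega

/-- The linear functional on `ℚ[s]` with value `α! G α` on the monomial `s^α`. -/
noncomputable def Gam (B : υ → Matrix κ κ ℚ) (p : MvPolynomial υ ℚ) : ℚ :=
  ∑ α ∈ p.support, p.coeff α * (∏ v, ((α v).factorial : ℚ)) * mom (trc B) α

end Moments

/-! ## Forms, weights and norms -/

variable {N₁ N₂ : ℕ}

/-- The weight of a variable `y`. -/
def wt : Fin N₁ ⊕ Fin N₂ → ℕ := Sum.elim (fun _ => 1) (fun _ => 2)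

/-- The form for which `y` stands: the linear form `∑ l u s x_s` or the quadratic form
`∑ A v s s' x_s x_s'`. -/
noncomputable def form {ι : Type} [Fintype ι] (l : Fin N₁ → ι → ℚ) (A : Fin N₂ → Matrix ι ι ℚ) :
    Fin N₁ ⊕ Fin N₂ → MvPolynomial ι ℚ :=
  Sum.elim (fun u => ∑ s, C (l u s) * X s) (fun v => ∑ s, ∑ s', C (A v s s') * X s * X s')

/-- Symmetric matrices of the quadratic forms `x_0 ^ 2`, `x_0 * (form of inl u)`,
`form of inr v`; the index `none` is the new variable `x_0`. -/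
def mat {ι : Type} [DecidableEq ι] (l : Fin N₁ → ι → ℚ) (A : Fin N₂ → Matrix ι ι ℚ) :
    Option (Fin N₁ ⊕ Fin N₂) → Matrix (Option ι) (Option ι) ℚ
  | none => Matrix.of fun a b => if a = none ∧ b = none then 1 else 0
  | some (Sum.inl u) => Matrix.of fun a b => match a, b with
    | none, some s => l u s / 2
    | some s, none => l u s / 2
    | _, _ => 0
  | some (Sum.inr v) => Matrix.of fun a b => match a, b with
    | some s, some s' => A v s s'
    | _, _ => 0

/-- Replace `inl u` by `some (inl u)` and `inr v` by `none * some (inr v)`. -/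
noncomputable def lift : MvPolynomial (Fin N₁ ⊕ Fin N₂) ℚ →ₐ[ℚ]
    MvPolynomial (Option (Fin N₁ ⊕ Fin N₂)) ℚ :=
  aeval (Sum.elim (fun u => X (some (Sum.inl u))) (fun v => X none * X (some (Sum.inr v))))

/-- The rational number `Γ ((lift p) ^ 2)` which decides if `p` vanishes at the forms. -/
noncomputable def nrm {ι : Type} [Fintype ι] [DecidableEq ι] (l : Fin N₁ → ι → ℚ)
    (A : Fin N₂ → Matrix ι ι ℚ) (p : MvPolynomial (Fin N₁ ⊕ Fin N₂) ℚ) : ℚ :=
  Gam (mat l A) ((lift p) ^ 2)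

/-! ## The power series -/

/-- `z d/dz`. -/
noncomputable def th {S : Type} [CommRing S] (g : PowerSeries S) : PowerSeries S :=
  PowerSeries.mk fun a => (a : S) * PowerSeries.coeff a g

/-- The power series `p(z^{wt v} φ_v)`. -/
noncomputable def hat {S : Type} [CommRing S] [Algebra ℚ S] (φ : Fin N₁ ⊕ Fin N₂ → S) :
    MvPolynomial (Fin N₁ ⊕ Fin N₂) ℚ →ₐ[ℚ] PowerSeries S :=
  aeval fun v => PowerSeries.X ^ wt v * PowerSeries.C (φ v)

/-- `∑ j, e_j (z d/dz f_j) / f_j`. -/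
noncomputable def dlog {S : Type} [CommRing S] {m : ℕ} (f : Fin m → PowerSeries S) (e : Fin m → ℕ) :
    PowerSeries S :=
  ∑ j, (e j : PowerSeries S) * (th (f j) * PowerSeries.invOfUnit (f j) 1)

/-- `P_0 = P`, `P_(a+1) = z d/dz P_a + D P_a`. -/
noncomputable def Pa {S : Type} [CommRing S] (D P : PowerSeries S) : ℕ → PowerSeries S
  | 0 => P
  | a + 1 => th (Pa D P a) + D * Pa D P a

/-- The determinant of `P_a` of the terms in the tuple `t`. -/
noncomputable def WW {S τ : Type} [CommRing S] {m : ℕ} (R : τ → PowerSeries S)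
    (f : Fin m → PowerSeries S) (e : τ → Fin m → ℕ) {s : ℕ} (t : Fin s → τ) :
    PowerSeries S :=
  Matrix.det (Matrix.of fun a b : Fin s => Pa (dlog f (e (t b))) (R (t b)) a)

/-- The Wronskian polynomial: coefficient of `z^μ` of `WW`, a polynomial in `y`. -/
noncomputable def wro {τ : Type} {m : ℕ} (R : τ → MvPolynomial (Fin N₁ ⊕ Fin N₂) ℚ)
    (f : Fin m → MvPolynomial (Fin N₁ ⊕ Fin N₂) ℚ) (e : τ → Fin m → ℕ) {s : ℕ}
    (t : Fin s → τ) (μ : ℕ) : MvPolynomial (Fin N₁ ⊕ Fin N₂) ℚ :=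
  PowerSeries.coeff μ (WW (fun i => hat X (R i)) (fun j => hat X (f j)) e t)

/-- The test for `∑ i, R_i(forms) ∏ j, f_j(forms) ^ e_ij = 0`. There is a tuple `t` of terms whose
Wronskian has order `w ≤ M` at the forms (the first nonzero coefficient is the one of `z^w`), the
Wronskians of all longer tuples `(t, i)` vanish at the forms, and for every position `b` the
coefficients of `z^w` in the Wronskians of the tuples `t` with `t_b` replaced by `i` have sum zero
over `i`. Vanishing at the forms is tested by `nrm`. -/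
def Test {ι τ : Type} [Fintype ι] [DecidableEq ι] [Fintype τ] {m : ℕ} (l : Fin N₁ → ι → ℚ)
    (A : Fin N₂ → Matrix ι ι ℚ) (R : τ → MvPolynomial (Fin N₁ ⊕ Fin N₂) ℚ)
    (f : Fin m → MvPolynomial (Fin N₁ ⊕ Fin N₂) ℚ) (e : τ → Fin m → ℕ) (M : ℕ) : Prop :=
  ∃ (s : ℕ) (t : Fin s → τ) (w : ℕ), s ≤ Fintype.card τ ∧ w ≤ M ∧
    nrm l A (wro R f e t w) ≠ 0 ∧
    (∀ μ < w, nrm l A (wro R f e t μ) = 0) ∧
    (∀ i : τ, ∀ μ ≤ M, nrm l A (wro R f e (Fin.snoc (α := fun _ => τ) t i) μ) = 0) ∧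
    ∀ b : Fin s, nrm l A (∑ i : τ, wro R f e (Function.update t b i) w) = 0

/-! ## Clusters -/

/-- Two of the `N` terms are adjacent if all their exponents differ by at most `B`. -/
def closeGraph {N m : ℕ} (e : Fin N → Fin m → ℕ) (B : ℕ) : SimpleGraph (Fin N) where
  Adj i i' := i ≠ i' ∧ ∀ j, e i j ≤ e i' j + B ∧ e i' j ≤ e i j + B
  symm := ⟨fun _ _ h => ⟨h.1.symm, fun j => ⟨(h.2 j).2, (h.2 j).1⟩⟩⟩
  loopless := ⟨fun _ h => h.1 rfl⟩

open scoped Classical in
/-- The cluster of the term `i`: its connected component in `closeGraph e B`. -/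
noncomputable def cluster {N m : ℕ} (e : Fin N → Fin m → ℕ) (B : ℕ) (i : Fin N) : Finset (Fin N) :=
  Finset.univ.filter fun i' => (closeGraph e B).Reachable i i'

/-- The exponents of the terms of the cluster `C` after division by the common factor. -/
noncomputable def red {N m : ℕ} (e : Fin N → Fin m → ℕ) (C : Finset (Fin N)) (i : {i // i ∈ C})
    (j : Fin m) : ℕ :=
  e i j - ⨅ i' : {i // i ∈ C}, e i' j

/-- The coefficient polynomials of the cluster: `R_i ∏ j, b_j ^ red i j`. -/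
noncomputable def cof {N m : ℕ} (R : Fin N → MvPolynomial (Fin N₁ ⊕ Fin N₂) ℚ) (b : Fin m → ℚ)
    (e : Fin N → Fin m → ℕ) (C : Finset (Fin N)) (i : {i // i ∈ C}) :
    MvPolynomial (Fin N₁ ⊕ Fin N₂) ℚ :=
  MvPolynomial.C (∏ j, b j ^ red e C i j) * R i

/-- The polynomials in `y` whose norms are used by `Test`. -/
def Tested {τ : Type} [Fintype τ] {m : ℕ} (R : τ → MvPolynomial (Fin N₁ ⊕ Fin N₂) ℚ)
    (f : Fin m → MvPolynomial (Fin N₁ ⊕ Fin N₂) ℚ) (e : τ → Fin m → ℕ) (M : ℕ)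
    (p : MvPolynomial (Fin N₁ ⊕ Fin N₂) ℚ) : Prop :=
  (∃ (s : ℕ) (t : Fin s → τ) (μ : ℕ), s ≤ Fintype.card τ + 1 ∧ μ ≤ M ∧ p = wro R f e t μ) ∨
  ∃ (s : ℕ) (t : Fin s → τ) (μ : ℕ) (b : Fin s), s ≤ Fintype.card τ ∧ μ ≤ M ∧
    p = ∑ i : τ, wro R f e (Function.update t b i) μ

/-- Integer coefficients with sum of absolute values at most `L`. -/
def IL {σ : Type} (p : MvPolynomial σ ℚ) (L : ℕ) : Prop :=
  (∀ α, ∃ z : ℤ, p.coeff α = z) ∧ ∑ α ∈ p.support, |p.coeff α| ≤ L

end Pool.Agent.QPI
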