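import Mathlib
import Pool.Agent.QPI.Base

set_option autoImplicit false

namespace Pool.Agent.QPI

open MvPolynomial

variable {N₁ N₂ : ℕ}

/-! ## Auxiliary notions for the proof -/

section Aux

variable {κ υ : Type} [Fintype κ] [DecidableEq κ] [Fintype υ] [DecidableEq υ]

/-- Moments of the standard Gaussian variable. -/
def dm (a : ℕ) : ℕ := if Even a then Nat.doubleFactorial (a - 1) else 0

/-- Gaussian expectation of a polynomial. -/
noncomputable def Ex (p : MvPolynomial κ ℚ) : ℚ :=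
  ∑ α ∈ p.support, p.coeff α * ∏ i, (dm (α i) : ℚ)

/-- The quadratic form with matrix `B`. -/
noncomputable def frm (B : Matrix κ κ ℚ) : MvPolynomial κ ℚ :=
  ∑ a, ∑ b, C (B a b) * X a * X b

/-- Product of powers of quadratic forms. -/
noncomputable def Qp (B : υ → Matrix κ κ ℚ) (γ : υ →₀ ℕ) : MvPolynomial κ ℚ :=
  ∏ v, frm (B v) ^ γ v

/-- `E[Q^γ] / γ!`. -/
noncomputable def gg (B : υ → Matrix κ κ ℚ) (γ : υ →₀ ℕ) : ℚ :=
  Ex (Qp B γ) / ∏ v, ((γ v).factorial : ℚ)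

/-- `∑ N a b E[x_a x_b Q^γ] / γ!`. -/
noncomputable def ph (B : υ → Matrix κ κ ℚ) (N : Matrix κ κ ℚ) (γ : υ →₀ ℕ) : ℚ :=
  (∑ a, ∑ b, N a b * Ex (X a * X b * Qp B γ)) / ∏ v, ((γ v).factorial : ℚ)

/-- Matrix coefficient of `s^β` in `(∑ v, s_v B_v) ^ |β|`. -/
noncomputable def Mc (B : υ → Matrix κ κ ℚ) (β : υ →₀ ℕ) : Matrix κ κ ℚ :=
  Matrix.of fun a b => coeff β (((∑ v, (X v : MvPolynomial υ ℚ) •
    (B v).map (C : ℚ →+* MvPolynomial υ ℚ)) ^ β.degree) a b)

end Aux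

/-- A power series which is a polynomial of degree at most `d`. -/
def PD {S : Type} [CommRing S] (g : PowerSeries S) (d : ℕ) : Prop :=
  ∀ a, d < a → PowerSeries.coeff a g = 0

/-- Every coefficient is weighted homogeneous of the right weight. -/
def WH (g : PowerSeries (MvPolynomial (Fin N₁ ⊕ Fin N₂) ℚ)) : Prop :=
  ∀ a, IsWeightedHomogeneous (wt : Fin N₁ ⊕ Fin N₂ → ℕ) (PowerSeries.coeff a g) a

/-- Every monomial of every coefficient involves at most `c` variables. -/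
def VB (g : PowerSeries (MvPolynomial (Fin N₁ ⊕ Fin N₂) ℚ)) (c : ℕ) : Prop :=
  ∀ a, ∀ α ∈ (PowerSeries.coeff a g).support, α.support.card ≤ c

end Pool.Agent.QPI
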