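import Mathlib
import Pool.Agent.QPI.Defs

set_option autoImplicit false

/-!
# Squad QPI (MP_b2b50d_lc): the rows

Polynomial-time identity test for sums of `k` products of quadratic polynomials.
Every row is independent: its `uses` are hypotheses `(h : XxxStmt)` of the theorem to be proved.
-/

namespace Pool.Agent.QPI

open MvPolynomial

/-! ## Block A: Gaussian moments -/

/-- A_LIN (no uses). `Ex` is linear, with the obvious value at monomials.
Hint: extend the sum over `p.support ∪ q.support ∪ (p + q).support` by zeros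
(`Finset.sum_subset`, `MvPolynomial.notMem_support_iff`). -/
def LinStmt : Prop :=
  ∀ (κ : Type) [Fintype κ] [DecidableEq κ],
    (∀ p q : MvPolynomial κ ℚ, Ex (p + q) = Ex p + Ex q) ∧
    (∀ (c : ℚ) (p : MvPolynomial κ ℚ), Ex (C c * p) = c * Ex p) ∧
    (∀ (α : κ →₀ ℕ) (c : ℚ), Ex (monomial α c) = c * ∏ i, (dm (α i) : ℚ))

/-- A_STE (uses LinStmt). Stein's identity `E[x_a h] = E[∂_a h]`. By linearity for a monomial
`h = x^γ`: `dm (γ_a + 1) = γ_a * dm (γ_a - 1)` (both sides `0` if `γ_a` is even;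
`γ‼ = γ (γ - 2)‼` if `γ_a` is odd), `MvPolynomial.pderiv_monomial`, and
`Finset.prod` split at `a`. -/
def SteinStmt : Prop :=
  ∀ (κ : Type) [Fintype κ] [DecidableEq κ] (a : κ) (h : MvPolynomial κ ℚ),
    Ex (X a * h) = Ex (pderiv a h)

/-- A_POS (uses LinStmt, SteinStmt). `E[p ^ 2] = 0` only for `p = 0`.
Proof (one way). Let `L h = ∑ a, (X a * ∂_a h - ∂_a ∂_a h)`. Stein: `E[g * L h] = ∑ a, E[∂_a g * ∂_a h]`
(as `E[X_a (g ∂_a h)] = E[∂_a (g ∂_a h)]`), symmetric in `g, h`. `L` maps polynomials of total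
degree `≤ d` to such, and `L h - d h` has total degree `< d` (or is `0`, or `d = 0`) if
`totalDegree h ≤ d` (Euler for the top homogeneous part). Claim by strong induction on `d`: for all
`h` of total degree `≤ d`, `E[h ^ 2] ≥ 0`, with equality only for `h = 0`. `d = 0`: `h = C c`,
`E = c ^ 2`. `d ≥ 1`: (i) for every `u` of total degree `< d` there is `g` of total degree
`≤` that of `u` with `L g - d g = u` (induction on the degree `e` of `u`: take `g₁ = u / (e - d)`,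
then `u - (L g₁ - d g₁)` has smaller degree). (ii) Apply (i) to `u = L h - d h`, put `H = h - g`, so
`L H = d H`, `totalDegree g < d`. (iii) `E[H g'] = 0` for all `g'` of total degree `< d`: write
`g' = L g'' - d g''`; `E[H (L g'' - d g'')] = E[(L H - d H) g''] = 0`. So `E[h^2] = E[H^2] + E[g^2]`.
(iv) `d E[H^2] = E[H L H] = ∑ a, E[(∂_a H)^2] ≥ 0` with equality only if all `∂_a H = 0`, then
`H` is constant, `L H = 0 = d H`, `H = 0`.
Any other proof is welcome (Hermite polynomials; Mathlib's Gaussian measure). -/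
def PosStmt : Prop :=
  ∀ (κ : Type) [Fintype κ] [DecidableEq κ] (p : MvPolynomial κ ℚ), Ex (p * p) = 0 → p = 0

/-- A_PHI (uses LinStmt, SteinStmt). `E[x_a x_b h] = δ_ab E[h] + E[x_b ∂_a h]` with `h = Q^γ`,
`∂_a Q^γ = ∑ v, γ_v Q^(γ - v) * 2 ∑ c, (B_v)_ac x_c` (`B_v` symmetric). So
`∑ N_ab E[x_a x_b Q^γ] = tr N E[Q^γ] + 2 ∑ v, γ_v ∑_{b,c} (N^T B_v)_bc E[x_b x_c Q^(γ-v)]`, and as the
left side does not change under `N ↦ N^T`, also with `N B_v`. Divide by `γ!`. -/
def PhiStmt : Prop :=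
  ∀ (κ υ : Type) [Fintype κ] [DecidableEq κ] [Fintype υ] [DecidableEq υ]
    (B : υ → Matrix κ κ ℚ), (∀ v, (B v).IsSymm) → ∀ (N : Matrix κ κ ℚ) (γ : υ →₀ ℕ),
    ph B N γ = Matrix.trace N * gg B γ +
      2 * ∑ v, if γ v = 0 then 0 else ph B (N * B v) (γ - Finsupp.single v 1)

/-- A_MC (no uses). Recursion for the matrix coefficients: `S = ∑ v, s_v B_v`,
`S ^ (d + 1) = S * S ^ d`, coefficient of `s^β`; and the trace. -/
def McStmt : Prop :=
  ∀ (κ υ : Type) [Fintype κ] [DecidableEq κ] [Fintype υ] [DecidableEq υ]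
    (B : υ → Matrix κ κ ℚ),
    Mc B 0 = 1 ∧
    (∀ β : υ →₀ ℕ, β ≠ 0 →
      Mc B β = ∑ v, if β v = 0 then 0 else B v * Mc B (β - Finsupp.single v 1)) ∧
    ∀ β : υ →₀ ℕ, trc B β = Matrix.trace (Mc B β)

/-- A_PHS (uses PhiStmt, McStmt). By induction on `|γ|` from A_PHI:
`ph N γ = tr N g γ + 2 ∑_v ∑_{β + β' = γ - v} 2 ^ |β| tr (N B_v M_β) g β'` and
`∑_v B_v M_(β - v) = M_β`. -/
def PhsStmt : Prop :=
  ∀ (κ υ : Type) [Fintype κ] [DecidableEq κ] [Fintype υ] [DecidableEq υ]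
    (B : υ → Matrix κ κ ℚ), (∀ v, (B v).IsSymm) → ∀ (N : Matrix κ κ ℚ) (γ : υ →₀ ℕ),
    ph B N γ = ∑ p ∈ Finset.HasAntidiagonal.antidiagonal γ,
      2 ^ p.1.degree * Matrix.trace (N * Mc B p.1) * gg B p.2

/-- A_MOM (uses LinStmt, PhsStmt, McStmt). `mom (trc B) α = E[Q^α] / α!`, by strong induction
on `|α|`: `|α| g α = ∑_v ph (B_v) (α - v)` because `α_v E[Q_v Q^(α - v)] / α! =
ph (B_v) (α - v)` for `α_v ≠ 0`; then A_PHS and A_MC give
`|α| g α = ∑_{β ≠ 0, β + β' = α} 2 ^ (|β| - 1) tr (M_β) g β'`, the recursion of `mom`. -/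
def MomStmt : Prop :=
  ∀ (κ υ : Type) [Fintype κ] [DecidableEq κ] [Fintype υ] [DecidableEq υ]
    (B : υ → Matrix κ κ ℚ), (∀ v, (B v).IsSymm) → ∀ α : υ →₀ ℕ,
    mom (trc B) α = gg B α

/-- A_GAM (uses LinStmt, MomStmt). `Γ(p) = E[p(Q)]`. -/
def GamStmt : Prop :=
  ∀ (κ υ : Type) [Fintype κ] [DecidableEq κ] [Fintype υ] [DecidableEq υ]
    (B : υ → Matrix κ κ ℚ), (∀ v, (B v).IsSymm) → ∀ p : MvPolynomial υ ℚ,
    Gam B p = Ex (aeval (fun v => frm (B v)) p)

/-- A_MAT (no uses). The matrices `mat l A` are symmetric and belong to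
`x_0 ^ 2`, `x_0 * form (inl u)`, `form (inr v)`. -/
def MatStmt : Prop :=
  ∀ (N₁ N₂ : ℕ) (ι : Type) [Fintype ι] [DecidableEq ι] (l : Fin N₁ → ι → ℚ)
    (A : Fin N₂ → Matrix ι ι ℚ), (∀ v, (A v).IsSymm) →
    (∀ w, (mat l A w).IsSymm) ∧
    frm (mat l A none) = X none ^ 2 ∧
    (∀ u, frm (mat l A (some (Sum.inl u))) = X none * rename some (form l A (Sum.inl u))) ∧
    ∀ v, frm (mat l A (some (Sum.inr v))) = rename some (form l A (Sum.inr v))

/-- A_NRM (uses PosStmt, GamStmt, MatStmt). For `p` weighted homogeneous of weight `μ`, the lift of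
`p` goes to `x_0 ^ μ * rename some (p(forms))` (monomial by monomial:
`lift y^α = ∏ some(inl u)^α_u * none^(∑ α_v) * ∏ some (inr v)^α_v`, with
`x_0 ^ (∑ α_u + 2 ∑ α_v) = x_0 ^ μ`), so `nrm p = E[(x_0 ^ μ p(forms)) ^ 2]`. -/
def NrmStmt : Prop :=
  ∀ (N₁ N₂ : ℕ) (ι : Type) [Fintype ι] [DecidableEq ι] (l : Fin N₁ → ι → ℚ)
    (A : Fin N₂ → Matrix ι ι ℚ), (∀ v, (A v).IsSymm) →
    ∀ (p : MvPolynomial (Fin N₁ ⊕ Fin N₂) ℚ) (μ : ℕ), IsWeightedHomogeneous wt p μ →
    nrm l A p = Ex ((X none ^ μ * rename some (aeval (form l A) p)) ^ 2) ∧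
    (nrm l A p = 0 ↔ aeval (form l A) p = 0)

/-! ## Block B: Wronskians of power series -/

/-- B_WRO (no uses). Independent power series over a field of characteristic zero have a nonzero
Wronskian for `z d/dz`. The general criterion in a differential field is
`PGH.Wr_ne_zero` (Pool/Agent/Helper97_PGH/Wron.lean); the constants of `z d/dz` on the fraction
field of `K⟦z⟧` are `K`: if `θ(A) B = A θ(B)`, `B ≠ 0`, then `A = c B`: compare the orders
(characteristic zero: they agree if `A ≠ 0`), subtract `c B` with `c` the quotient of the leading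
coefficients, the difference satisfies the same relation and has another order, so it is `0`.
Other way: change the basis of the span to one with distinct orders `o_b` and look at the
coefficient of `z ^ (∑ o_b)`: a Vandermonde determinant. -/
def WroStmt : Prop :=
  ∀ (K : Type) [Field K] [CharZero K] (s : ℕ) (g : Fin s → PowerSeries K),
    LinearIndependent K g →
    Matrix.det (Matrix.of fun a b : Fin s => th^[(a : ℕ)] (g b)) ≠ 0

/-- B_BAS (no uses). A maximal independent subfamily, indexed by `Fin s`, `s ≤ |τ|`.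
(`exists_linearIndependent'`, `Fintype.equivFin`; or induction.) -/
def BasStmt : Prop :=
  ∀ (K V τ : Type) [Field K] [AddCommGroup V] [Module K V] [Fintype τ] (T : τ → V),
    ∃ (s : ℕ) (t : Fin s → τ), s ≤ Fintype.card τ ∧ LinearIndependent K (fun b => T (t b)) ∧
      ∀ i, T i ∈ Submodule.span K (Set.range fun b => T (t b))

/-- B_COL (no uses). If `T_i = ∑ b, γ_b T_(t b)` then replacing column `c` by `T_i` multiplies the
Wronskian by `γ_c`, and the Wronskian of `snoc t i` is zero. (`th` is additive and `K`-linear;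
`Matrix.det_updateCol_sum`; for the second part the last column is a combination of the others:
`Matrix.det_eq_zero_of_...` or `Matrix.exists_mulVec_eq_zero_iff` over the domain `K⟦z⟧`.) -/
def ColStmt : Prop :=
  ∀ (K τ : Type) [Field K] (s : ℕ) (T : τ → PowerSeries K) (t : Fin s → τ) (i : τ)
    (γ : Fin s → K), T i = ∑ b, γ b • T (t b) →
    (∀ c : Fin s, Matrix.det (Matrix.of fun a b : Fin s =>
        th^[(a : ℕ)] (T (Function.update t c i b))) =
      PowerSeries.C (γ c) * Matrix.det (Matrix.of fun a b : Fin s => th^[(a : ℕ)] (T (t b)))) ∧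
    Matrix.det (Matrix.of fun a b : Fin (s + 1) =>
      th^[(a : ℕ)] (T (Fin.snoc (α := fun _ => τ) t i b))) = 0

/-- B_CRI (uses WroStmt, BasStmt, ColStmt). The criterion for `∑ T_i = 0`.
`θ^a T_i = U_i P_i a`, so `det (θ^a T_(t b)) = ∏ U_(t b) * det (P_(t b) a)` (factor out of the
columns), all `U_i` are units with constant coefficient `1`.
(→) take `t` from B_BAS; `det P_t ≠ 0` by B_WRO; by the hypothesis on `M` some coefficient `≤ M`
is nonzero, let `w` be the first one; `det P_(snoc t i) = 0` by B_COL; write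
`T_i = ∑ γ_ib T_(t b)`; then `U_i * det P_(update t b i) * ∏_{b' ≠ b} U = γ_ib ∏ U_(t b) det P_t`,
so `U_i det P_(update t b i) = γ_ib U_(t b) det P_t`, and comparing the coefficients of
`z ^ w` (all lower ones of `det P_t` vanish, the unit factors have constant coefficient `1`; first
deduce by induction that the lower coefficients of `det P_(update t b i)` vanish)
`coeff w (det P_(update t b i)) = γ_ib coeff w (det P_t)`; `0 = ∑ T_i = ∑_b (∑_i γ_ib) T_(t b)` gives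
`∑_i γ_ib = 0`.
(←) `det P_t ≠ 0`, so the `T_(t b)` are independent (a linear relation gives a zero determinant);
`det P_(snoc t i) = 0` by the hypothesis on `M`, so by B_WRO the family `T_(snoc t i)` is dependent and
`T_i` is in the span; again `coeff w (det P_(update t b i)) = γ_ib coeff w (det P_t)`, so
`∑_i γ_ib = 0` for all `b` and `∑ T_i = 0`. -/
def CriStmt : Prop :=
  ∀ (K τ : Type) [Field K] [CharZero K] [Fintype τ] (M : ℕ) (T U : τ → PowerSeries K)
    (P : τ → ℕ → PowerSeries K), (∀ i, PowerSeries.constantCoeff (U i) = 1) →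
    (∀ i a, th^[a] (T i) = U i * P i a) →
    (∀ (s : ℕ) (t : Fin s → τ), s ≤ Fintype.card τ + 1 →
      (∀ μ ≤ M, PowerSeries.coeff μ (Matrix.det (Matrix.of fun a b : Fin s => P (t b) a)) = 0) →
      Matrix.det (Matrix.of fun a b : Fin s => P (t b) a) = 0) →
    (∑ i, T i = 0 ↔ ∃ (s : ℕ) (t : Fin s → τ) (w : ℕ), s ≤ Fintype.card τ ∧ w ≤ M ∧
      PowerSeries.coeff w (Matrix.det (Matrix.of fun a b : Fin s => P (t b) a)) ≠ 0 ∧
      (∀ μ < w, PowerSeries.coeff μ (Matrix.det (Matrix.of fun a b : Fin s => P (t b) a)) = 0) ∧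
      (∀ i : τ, ∀ μ ≤ M, PowerSeries.coeff μ (Matrix.det (Matrix.of fun a b : Fin (s + 1) =>
        P (Fin.snoc (α := fun _ => τ) t i b) a)) = 0) ∧
      ∀ c : Fin s, ∑ i : τ, PowerSeries.coeff w (Matrix.det (Matrix.of fun a b : Fin s =>
        P (Function.update t c i b) a)) = 0)

/-- B_PDC (no uses). Closure properties of `PD` (polynomial of degree `≤ d`). -/
def PdcStmt : Prop :=
  ∀ (S : Type) [CommRing S] (g h : PowerSeries S) (d d' : ℕ),
    (PD g d → PD h d → PD (g + h) d) ∧ (PD g d → PD h d' → PD (g * h) (d + d')) ∧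
    (PD g d → PD (th g) d) ∧ (PD g d → PD (-g) d) ∧ (d ≤ d' → PD g d → PD g d') ∧
    PD (1 : PowerSeries S) 0

/-- B_PAH (uses PdcStmt). `H = ∏ f_j`; `H D` is a polynomial of degree `≤ m δ`
(`H * (θ f_j * f_j⁻¹) = θ f_j * ∏_{j' ≠ j} f_j'`), and
`H^(a+1) P_(a+1) = H θ(H^a P_a) - a θ(H) H^a P_a + (H D) (H^a P_a)` (`θ` is a derivation). -/
def PahStmt : Prop :=
  ∀ (S : Type) [CommRing S] (m ρ δ : ℕ) (f : Fin m → PowerSeries S) (e : Fin m → ℕ)
    (P : PowerSeries S), (∀ j, PowerSeries.constantCoeff (f j) = 1) → (∀ j, PD (f j) δ) →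
    PD P ρ → ∀ a, PD ((∏ j, f j) ^ a * Pa (dlog f e) P a) (ρ + a * (m * δ))

/-- B_WDG (uses PdcStmt, PahStmt). `∏_{a < s} H^a * WW = det (H^a P_a)` has degree
`≤ ∑_{a < s} (ρ + a m δ) ≤ (k + 1) (ρ + k m δ)`; if the coefficients of `WW` up to this bound vanish,
those of the product vanish too, so all of them; `H` has constant coefficient `1`, so it is a unit
(`PowerSeries.isUnit_iff_constantCoeff`). -/
def WdgStmt : Prop :=
  ∀ (S τ : Type) [CommRing S] (k m ρ δ s : ℕ) (R : τ → PowerSeries S)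
    (f : Fin m → PowerSeries S) (e : τ → Fin m → ℕ) (t : Fin s → τ),
    (∀ j, PowerSeries.constantCoeff (f j) = 1) → (∀ j, PD (f j) δ) → (∀ i, PD (R i) ρ) →
    s ≤ k + 1 → (∀ μ ≤ (k + 1) * (ρ + k * (m * δ)), PowerSeries.coeff μ (WW R f e t) = 0) →
    WW R f e t = 0

/-- B_MAP (no uses). Base change. (`PowerSeries.map` of `invOfUnit g 1` is the inverse of the image:
multiply by the image of `g`; `RingHom.map_det`; `hat` by `MvPolynomial.induction_on` or
`MvPolynomial.algHom_ext`.) -/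
def MapStmt : Prop :=
  (∀ (S S' τ : Type) [CommRing S] [CommRing S'] (φ : S →+* S') (m s : ℕ)
    (R : τ → PowerSeries S) (f : Fin m → PowerSeries S) (e : τ → Fin m → ℕ)
    (t : Fin s → τ), (∀ j, PowerSeries.constantCoeff (f j) = 1) →
    PowerSeries.map φ (WW R f e t) =
      WW (fun i => PowerSeries.map φ (R i)) (fun j => PowerSeries.map φ (f j)) e t) ∧
  ∀ (N₁ N₂ : ℕ) (S : Type) [CommRing S] [Algebra ℚ S] (φ : Fin N₁ ⊕ Fin N₂ → S)
    (p : MvPolynomial (Fin N₁ ⊕ Fin N₂) ℚ),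
    PowerSeries.map (aeval φ : MvPolynomial (Fin N₁ ⊕ Fin N₂) ℚ →ₐ[ℚ] S).toRingHom (hat X p) =
      hat φ p

/-- B_UPA (no uses). `θ U = D U` for `U = ∏ f_j ^ e_j` (`θ` is a derivation, `f_j * f_j⁻¹ = 1`) and
`θ (U P_a) = U (θ P_a + D P_a)`. -/
def UpaStmt : Prop :=
  ∀ (S : Type) [CommRing S] (m : ℕ) (f : Fin m → PowerSeries S) (e : Fin m → ℕ)
    (P : PowerSeries S), (∀ j, PowerSeries.constantCoeff (f j) = 1) →
    ∀ a, th^[a] ((∏ j, f j ^ e j) * P) = (∏ j, f j ^ e j) * Pa (dlog f e) P a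

/-- B_SCA (no uses). `x ↦ z x`: with `Hx (x_s) = z x_s` one has `hat form p = Hx (p(form))`
(`form` is homogeneous of degree `wt`), and `Hx` is injective (a monomial `x^α` goes to
`z^|α| x^α`; `∑_μ coeff_μ (Hx q) = q`). -/
def ScaStmt : Prop :=
  ∀ (N₁ N₂ : ℕ) (ι : Type) [Fintype ι] (l : Fin N₁ → ι → ℚ) (A : Fin N₂ → Matrix ι ι ℚ),
    (∀ p : MvPolynomial (Fin N₁ ⊕ Fin N₂) ℚ, hat (form l A) p =
      (aeval (fun s : ι => (PowerSeries.X : PowerSeries (MvPolynomial ι ℚ)) *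
        PowerSeries.C (X s)) : MvPolynomial ι ℚ →ₐ[ℚ] PowerSeries (MvPolynomial ι ℚ))
        (aeval (form l A) p)) ∧
    Function.Injective (aeval (fun s : ι => (PowerSeries.X : PowerSeries (MvPolynomial ι ℚ)) *
      PowerSeries.C (X s)) : MvPolynomial ι ℚ →ₐ[ℚ] PowerSeries (MvPolynomial ι ℚ))

/-- B_HAT (no uses). Constant coefficient and degree of `hat φ p` (the weights are `≥ 1`). -/
def HatStmt : Prop :=
  ∀ (N₁ N₂ : ℕ) (S : Type) [CommRing S] [Algebra ℚ S] (φ : Fin N₁ ⊕ Fin N₂ → S)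
    (p : MvPolynomial (Fin N₁ ⊕ Fin N₂) ℚ),
    PowerSeries.constantCoeff (hat φ p) = algebraMap ℚ S (constantCoeff p) ∧
    ∀ d, weightedTotalDegree (wt : Fin N₁ ⊕ Fin N₂ → ℕ) p ≤ d → PD (hat φ p) d

/-! ## Block C: the coefficients -/

/-- C_WHC (no uses). Closure properties of `WH`. (For the inverse: strong induction on the
coefficient, `PowerSeries.coeff_invOfUnit`.) -/
def WhcStmt : Prop :=
  ∀ (N₁ N₂ : ℕ) (g h : PowerSeries (MvPolynomial (Fin N₁ ⊕ Fin N₂) ℚ)),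
    (WH g → WH h → WH (g + h)) ∧ (WH g → WH h → WH (g * h)) ∧ (WH g → WH (th g)) ∧
    (WH g → WH (-g)) ∧ (∀ a : ℕ, WH (a : PowerSeries (MvPolynomial (Fin N₁ ⊕ Fin N₂) ℚ))) ∧
    (WH g → PowerSeries.constantCoeff g = 1 → WH (PowerSeries.invOfUnit g 1))

/-- C_WHW (uses WhcStmt, HatStmt). `hat X p` and `WW` of such series are `WH`. -/
def WhwStmt : Prop :=
  ∀ (N₁ N₂ m s : ℕ) (τ : Type) (R : τ → MvPolynomial (Fin N₁ ⊕ Fin N₂) ℚ)
    (f : Fin m → MvPolynomial (Fin N₁ ⊕ Fin N₂) ℚ) (e : τ → Fin m → ℕ) (t : Fin s → τ)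
    (μ : ℕ), (∀ j, constantCoeff (f j) = 1) →
    IsWeightedHomogeneous (wt : Fin N₁ ⊕ Fin N₂ → ℕ) (wro R f e t μ) μ

/-- C_VBC (no uses). Closure properties of `VB`; the last part: if the polynomial `f` involves at
most `c` variables, then every power series in the subring of series with coefficients in these
variables is `VB c`, in particular `θ(hat f) / hat f`. (The coefficients of `hat X f` have their
variables in `f.vars`; closure of `{g | ∀ μ, (coeff μ g).vars ⊆ V}` under product, `th` and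
`invOfUnit`.) -/
def VbcStmt : Prop :=
  ∀ (N₁ N₂ : ℕ) (g h : PowerSeries (MvPolynomial (Fin N₁ ⊕ Fin N₂) ℚ)) (c d : ℕ),
    (VB g c → VB h c → VB (g + h) c) ∧ (VB g c → VB h d → VB (g * h) (c + d)) ∧
    (VB g c → VB (th g) c) ∧ (VB g c → VB (-g) c) ∧ (c ≤ d → VB g c → VB g d) ∧
    (∀ a : ℕ, VB (a : PowerSeries (MvPolynomial (Fin N₁ ⊕ Fin N₂) ℚ)) 0) ∧
    (∀ R : MvPolynomial (Fin N₁ ⊕ Fin N₂) ℚ, (∀ α ∈ R.support, α.support.card ≤ c) →
      VB (hat X R) c) ∧
    ∀ f : MvPolynomial (Fin N₁ ⊕ Fin N₂) ℚ, constantCoeff f = 1 → f.vars.card ≤ c →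
      VB (th (hat X f) * PowerSeries.invOfUnit (hat X f) 1) c

/-- C_VBW (uses VbcStmt). `D_i` is `VB c`, so `P_a` is `VB (r + a c)`, so the determinant of size
`s ≤ k + 1` is `VB ((k + 1) (r + k c))`. -/
def VbwStmt : Prop :=
  ∀ (N₁ N₂ k m s r c : ℕ) (τ : Type) (R : τ → MvPolynomial (Fin N₁ ⊕ Fin N₂) ℚ)
    (f : Fin m → MvPolynomial (Fin N₁ ⊕ Fin N₂) ℚ) (e : τ → Fin m → ℕ) (t : Fin s → τ)
    (μ : ℕ), (∀ j, constantCoeff (f j) = 1) → (∀ j, (f j).vars.card ≤ c) →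
    (∀ i, ∀ α ∈ (R i).support, α.support.card ≤ r) → s ≤ k + 1 →
    ∀ α ∈ (wro R f e t μ).support, α.support.card ≤ (k + 1) * (r + k * c)

/-- C_CNT (no uses). A weighted homogeneous polynomial of weight `μ` whose monomials involve at most
`K` variables has at most `((N₁ + N₂) (μ + 1) + 1) ^ K` monomials. (A monomial is given by a list of
`K` entries, each `none` or a pair (variable, exponent `≤ μ`): injection into
`Fin K → Option ((Fin N₁ ⊕ Fin N₂) × Fin (μ + 1))`.) -/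
def CntStmt : Prop :=
  ∀ (N₁ N₂ K μ : ℕ) (p : MvPolynomial (Fin N₁ ⊕ Fin N₂) ℚ),
    IsWeightedHomogeneous (wt : Fin N₁ ⊕ Fin N₂ → ℕ) p μ →
    (∀ α ∈ p.support, α.support.card ≤ K) →
    p.support.card ≤ ((N₁ + N₂) * (μ + 1) + 1) ^ K

/-! ## The result -/

/-- R_COR (uses NrmStmt, CriStmt, WdgStmt, MapStmt, UpaStmt, ScaStmt, HatStmt, WhwStmt; helper26). -/
def CorStmt : Prop :=
  ∀ (N₁ N₂ k m ρ δ : ℕ) (ι τ : Type) [Fintype ι] [DecidableEq ι] [Fintype τ]
    (l : Fin N₁ → ι → ℚ) (A : Fin N₂ → Matrix ι ι ℚ)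
    (R : τ → MvPolynomial (Fin N₁ ⊕ Fin N₂) ℚ)
    (f : Fin m → MvPolynomial (Fin N₁ ⊕ Fin N₂) ℚ) (e : τ → Fin m → ℕ),
    Fintype.card τ ≤ k → (∀ v, (A v).IsSymm) → (∀ j, constantCoeff (f j) = 1) →
    (∀ i, weightedTotalDegree (wt : Fin N₁ ⊕ Fin N₂ → ℕ) (R i) ≤ ρ) →
    (∀ j, weightedTotalDegree (wt : Fin N₁ ⊕ Fin N₂ → ℕ) (f j) ≤ δ) →
    (∑ i, aeval (form l A) (R i) * ∏ j, aeval (form l A) (f j) ^ e i j = 0 ↔
      Test l A R f e ((k + 1) * (ρ + k * (m * δ))))

end Pool.Agent.QPI
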