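import Mathlib
import Pool.Agent.QPI.Defs

set_option autoImplicit false

/-!
# Squad QPI (MP_b2b50d_lc), block D: all numbers have polynomially many bits
-/

namespace Pool.Agent.QPI

open MvPolynomial

/-- The coefficient of `z^μ` has integer coefficients with sum of absolute values `≤ a c^μ`. -/
def SB {σ : Type} (g : PowerSeries (MvPolynomial σ ℚ)) (a c : ℕ) : Prop :=
  ∀ μ, IL (PowerSeries.coeff μ g) (a * c ^ μ)

/-- D_LEN (no uses). Closure properties of `IL`. The last part: substitution of polynomials `φ v` of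
length `≤ Λ` (`1 ≤ Λ`) in a polynomial whose monomials have degree at most `d`. -/
def LenStmt : Prop :=
  ∀ (σ τ : Type) (p q : MvPolynomial σ ℚ) (L L' : ℕ),
    (IL p L → IL q L' → IL (p + q) (L + L')) ∧ (IL p L → IL q L' → IL (p * q) (L * L')) ∧
    (IL p L → IL (-p) L) ∧ (L ≤ L' → IL p L → IL p L') ∧
    (∀ a : ℕ, IL (a : MvPolynomial σ ℚ) a) ∧ (∀ s : σ, IL (X s : MvPolynomial σ ℚ) 1) ∧
    ∀ (φ : σ → MvPolynomial τ ℚ) (Λ d : ℕ), 1 ≤ Λ → (∀ v, IL (φ v) Λ) →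
      (∀ α ∈ p.support, α.degree ≤ d) → IL p L → IL (aeval φ p) (L * Λ ^ d)

/-- D_SBC (uses LenStmt). Closure properties of `SB`. Product: `∑_{i+j=μ} a c^i a' c'^j ≤
a a' (c + c')^μ`. `th`: `μ ≤ 2^μ`. Inverse `h` of `g` (constant coefficient `1`, all coefficients of
length `≤ L`, `1 ≤ L`): `h_μ = - ∑_{i=1}^μ g_i h_(μ-i)`, so by strong induction the length is at most
`∑_{i=1}^μ L (2L)^(μ-i) ≤ (2L)^μ`. -/
def SbcStmt : Prop :=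
  ∀ (σ : Type) (g h : PowerSeries (MvPolynomial σ ℚ)) (a a' c c' L : ℕ),
    (SB g a c → SB h a' c → SB (g + h) (a + a') c) ∧
    (SB g a c → SB h a' c' → SB (g * h) (a * a') (c + c')) ∧
    (SB g a c → SB (th g) a (2 * c)) ∧ (SB g a c → SB (-g) a c) ∧
    (a ≤ a' → c ≤ c' → SB g a c → SB g a' c') ∧
    (∀ n : ℕ, SB (n : PowerSeries (MvPolynomial σ ℚ)) n 0) ∧
    (1 ≤ L → PowerSeries.constantCoeff g = 1 → SB g L 1 → SB (PowerSeries.invOfUnit g 1) 1 (2 * L))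

/-- D_HTL (no uses). The coefficient of `z^μ` in `hat X p` is the part of `p` of weight `μ`. -/
def HtlStmt : Prop :=
  ∀ (N₁ N₂ L : ℕ) (p : MvPolynomial (Fin N₁ ⊕ Fin N₂) ℚ), IL p L → SB (hat X p) L 1

/-- D_SBW (uses SbcStmt, HtlStmt). `θ f_j : (L, 2)`, `1 / f_j : (1, 2 L)`, `D_i : (m E L, 2 + 2 L)`,
`P_a : ((1 + m E L)^a L, 2^a (3 + 2 L))`, determinant: `s! ≤ (k + 1)!` products of `s ≤ k + 1`
entries. -/
def SbwStmt : Prop :=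
  ∀ (N₁ N₂ k m s L E : ℕ) (τ : Type) (R : τ → MvPolynomial (Fin N₁ ⊕ Fin N₂) ℚ)
    (f : Fin m → MvPolynomial (Fin N₁ ⊕ Fin N₂) ℚ) (e : τ → Fin m → ℕ) (t : Fin s → τ)
    (μ : ℕ), 1 ≤ L → (∀ j, constantCoeff (f j) = 1) → (∀ i, IL (R i) L) → (∀ j, IL (f j) L) →
    (∀ i j, e i j ≤ E) → s ≤ k + 1 →
    IL (wro R f e t μ) ((k + 1).factorial * ((1 + m * E * L) ^ k * L) ^ (k + 1) *
      ((k + 1) * (2 ^ k * (3 + 2 * L))) ^ μ)

/-- D_EXB (no uses). `∏ dm (α i) ≤ ∏ (α i)! ≤ d!`. -/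
def ExbStmt : Prop :=
  ∀ (κ : Type) [Fintype κ] [DecidableEq κ] (p : MvPolynomial κ ℚ) (L d : ℕ), IL p L →
    (∀ α ∈ p.support, α.degree ≤ d) → ∃ z : ℤ, Ex p = z ∧ |z| ≤ L * d.factorial

/-- D_NRB (uses NrmStmt (first part: the formula for `nrm`), LenStmt, ExbStmt). The norm of a
weighted homogeneous polynomial is an integer. -/
def NrbStmt : Prop :=
  ∀ (N₁ N₂ : ℕ) (ι : Type) [Fintype ι] [DecidableEq ι] (l : Fin N₁ → ι → ℚ)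
    (A : Fin N₂ → Matrix ι ι ℚ) (p : MvPolynomial (Fin N₁ ⊕ Fin N₂) ℚ) (μ L Λ : ℕ),
    (∀ v, (A v).IsSymm) → 1 ≤ Λ → (∀ v, IL (form l A v) Λ) → IL p L →
    IsWeightedHomogeneous (wt : Fin N₁ ⊕ Fin N₂ → ℕ) p μ →
    ∃ z : ℤ, nrm l A p = z ∧ |z| ≤ (L * Λ ^ μ) ^ 2 * (4 * μ).factorial

/-- D_BIT (no uses). The arithmetic: `50 (M + k + m + b + 1)^3` bits. With `X = M + k + m + b + 1`:
`1 + m E L ≤ 2^(m + 2b)`, `3 + 2 L ≤ 2^(b + 3)`, `(k+1)! ≤ 2^(k (k+1))`,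
`(4 μ)! ≤ 2^(16 μ^2)`. -/
def BitStmt : Prop :=
  ∀ (k m M b μ L E Λ : ℕ), L ≤ 2 ^ b → E ≤ 2 ^ b → Λ ≤ 2 ^ b → μ ≤ M →
    ((k + 1) * ((k + 1).factorial * ((1 + m * E * L) ^ k * L) ^ (k + 1) *
      ((k + 1) * (2 ^ k * (3 + 2 * L))) ^ μ) * Λ ^ μ) ^ 2 * (4 * μ).factorial ≤
      2 ^ (50 * (M + k + m + b + 1) ^ 3)

end Pool.Agent.QPI
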