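import Mathlib
import Pool.Agent.QPI.Stmts
import Pool.Agent.QPI.StmtsD
import Pool.Agent.Helper78_ACIT.Circuit

set_option autoImplicit false

/-!
# Sums of products of quadratic polynomials: clusters and the final statement
-/

namespace Pool.Agent.QPI

open MvPolynomial

/-! ## Rows for the final statement -/

/-- F_CLU (no uses; Pool/Agent/Helper12_Clust/Main.lean: `cluster`). A vanishing sum vanishes cluster
by cluster, for nonconstant pairwise coprime bases `p_j`, if `B` is at least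
`(N-1)(N-2) ∑ deg p_j + ∑ deg A_i`; trivial if all exponents are close. -/
def CluStmt : Prop :=
  ∀ (n N m B : ℕ) (A : Fin N → MvPolynomial (Fin n) ℚ) (p : Fin m → MvPolynomial (Fin n) ℚ)
    (e : Fin N → Fin m → ℕ), (∀ j, p j ≠ 0) →
    ((N - 1) * (N - 2) * (∑ j, (p j).totalDegree) + ∑ i, (A i).totalDegree ≤ B) →
    (((∀ j, 1 ≤ (p j).totalDegree) ∧ Pairwise fun i j => IsRelPrime (p i) (p j)) ∨
      ∀ i i' j, e i j ≤ e i' j + B) →
    (∑ i, A i * ∏ j, p j ^ e i j = 0 ↔
      ∀ i0, ∑ i : {i // i ∈ cluster e B i0}, A i * ∏ j, p j ^ red e (cluster e B i0) i j = 0)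

/-- F_RED (no uses). The reduced exponents are at most `k B` if the cluster has at most `k`
elements (a path of length `< k` to the element with the minimal exponent). -/
def RedStmt : Prop :=
  ∀ (N m B k : ℕ) (e : Fin N → Fin m → ℕ) (i0 : Fin N), (cluster e B i0).card ≤ k →
    ∀ (i : {i // i ∈ cluster e B i0}) (j : Fin m), red e (cluster e B i0) i j ≤ k * B

/-- F_DEG (no uses). Degree and constant coefficient of `p(forms)`. -/
def DegStmt : Prop :=
  ∀ (N₁ N₂ : ℕ) (ι : Type) [Fintype ι] (l : Fin N₁ → ι → ℚ) (A : Fin N₂ → Matrix ι ι ℚ)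
    (p : MvPolynomial (Fin N₁ ⊕ Fin N₂) ℚ),
    (aeval (form l A) p).totalDegree ≤ weightedTotalDegree (wt : Fin N₁ ⊕ Fin N₂ → ℕ) p ∧
    constantCoeff (aeval (form l A) p) = constantCoeff p

open Helper78_ACIT in
/-- F_SHI (no uses; `Helper78_ACIT.out_eq_eval`). The substitution `x_s ↦ a_s + β x_s`, `β ≠ 0`,
is injective on `ℤ[x]`. -/
def ShiStmt : Prop :=
  ∀ (G : List Gate) (a : ℕ → ℚ) (β : ℚ), β ≠ 0 →
    (out (fun s => C (a s) + C β * X s : ℕ → MvPolynomial ℕ ℚ) G = 0 ↔ poly G = 0)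

end Pool.Agent.QPI
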